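import Pool.Agent.H77.RZ.Stmts

/-!
# RC2: splitting of a ternary form over the projective line
-/

set_option autoImplicit false

namespace Pool.RZ

open Polynomial Matrix Pool.AVR Pool.AVS

namespace RC2

theorem intDegree_X_npow {F : Type} [Field F] (n : ℕ) :
    ((RatFunc.X : RatFunc F) ^ n).intDegree = n := by
  rw [← RatFunc.algebraMap_X, ← map_pow, RatFunc.intDegree_polynomial, natDegree_X_pow]

theorem intDegree_X_zpow {F : Type} [Field F] (n : ℤ) :
    ((RatFunc.X : RatFunc F) ^ n).intDegree = n := by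
  obtain ⟨k, rfl | rfl⟩ := n.eq_nat_or_neg
  · rw [_root_.zpow_natCast, intDegree_X_npow]
  · rw [_root_.zpow_neg, _root_.zpow_natCast, RatFunc.intDegree_inv, intDegree_X_npow]

theorem mul_entries {K : Type} [Field K] (O : Subring K) (A B : Matrix (Fin 3) (Fin 3) K)
    (hA : ∀ i j, A i j ∈ O) (hB : ∀ i j, B i j ∈ O) : ∀ i j, (A * B) i j ∈ O := by
  intro i j
  rw [Matrix.mul_apply]
  exact O.sum_mem fun k _ => O.mul_mem (hA i k) (hB k j)

end RC2

theorem rc2_thm (hBIR : Pool.AVR.BIRStmt) : RC2Stmt := by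
  intro F _ _ h2 c G δ hGT hδ hdet hEL
  obtain ⟨g, hg, hU⟩ := hEL
  obtain ⟨hUM, hU0, hU1, hU2⟩ := hU
  set φ := algebraMap F[X] (RatFunc F) with hφ
  have hφi : Function.Injective φ := RatFunc.algebraMap_injective F
  have hX0 : (RatFunc.X : RatFunc F) ≠ 0 := RatFunc.X_ne_zero
  have hgu : IsUnit g.det := isUnit_iff_ne_zero.mpr hg
  have hgi : (g⁻¹).det ≠ 0 := by
    rw [Matrix.det_nonsing_inv, Ring.inverse_eq_inv']
    exact inv_ne_zero hg
  obtain ⟨γ, d, κ, hγ, hκ, hκ0, hκ1, hfac⟩ := hBIR F g⁻¹ hgi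
  obtain ⟨q, hq, hqC⟩ := Polynomial.isUnit_iff.1 hγ
  have hq0 : q ≠ 0 := hq.ne_zero
  set U : Matrix (Fin 3) (Fin 3) (RatFunc F) := gᵀ * G.map φ * g with hUdef
  set D : Matrix (Fin 3) (Fin 3) (RatFunc F) :=
    Matrix.diagonal (fun i => (RatFunc.X : RatFunc F) ^ d i) with hD
  have hDT : Dᵀ = D := by rw [hD, Matrix.diagonal_transpose]
  set W : Matrix (Fin 3) (Fin 3) (RatFunc F) := κᵀ * U * κ with hW
  have hκT : ∀ i j, κᵀ i j ∈ OInf F := fun i j => hκ j i
  have hWM : ∀ i j, W i j ∈ OInf F :=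
    RC2.mul_entries _ _ _ (RC2.mul_entries _ _ _ hκT hUM) hκ
  have hWdet : W.det = κ.det * U.det * κ.det := by
    rw [hW, Matrix.det_mul, Matrix.det_mul, Matrix.det_transpose]
  have hWd0 : W.det ≠ 0 := by
    rw [hWdet]
    exact mul_ne_zero (mul_ne_zero hκ0 hU0) hκ0
  have hdetmem : ∀ M : Matrix (Fin 3) (Fin 3) (RatFunc F), (∀ i j, M i j ∈ OInf F) →
      M.det ∈ OInf F := by
    intro M hM
    rw [Matrix.det_fin_three]
    have h := hM
    exact (OInf F).sub_mem ((OInf F).add_mem ((OInf F).add_mem ((OInf F).sub_mem ((OInf F).sub_mem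
      ((OInf F).mul_mem ((OInf F).mul_mem (h _ _) (h _ _)) (h _ _))
      ((OInf F).mul_mem ((OInf F).mul_mem (h _ _) (h _ _)) (h _ _)))
      ((OInf F).mul_mem ((OInf F).mul_mem (h _ _) (h _ _)) (h _ _)))
      ((OInf F).mul_mem ((OInf F).mul_mem (h _ _) (h _ _)) (h _ _)))
      ((OInf F).mul_mem ((OInf F).mul_mem (h _ _) (h _ _)) (h _ _)))
      ((OInf F).mul_mem ((OInf F).mul_mem (h _ _) (h _ _)) (h _ _))
  have hW1 : W.det ∈ OInf F := hdetmem W hWM
  have hW2 : (W.det)⁻¹ ∈ OInf F := by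
    rw [hWdet, mul_inv, mul_inv]
    exact (OInf F).mul_mem ((OInf F).mul_mem hκ1 hU2) hκ1
  have hWdeg : W.det.intDegree = 0 := by
    have a1 : W.det.intDegree ≤ 0 := hW1
    have a2 : (W.det)⁻¹.intDegree ≤ 0 := hW2
    rw [RatFunc.intDegree_inv] at a2
    omega
  -- the key identity
  have hgg : g⁻¹ᵀ * U * g⁻¹ = G.map φ := by
    have e1 : g * g⁻¹ = 1 := Matrix.mul_nonsing_inv g hgu
    have e2 : g⁻¹ᵀ * gᵀ = 1 := by rw [← Matrix.transpose_mul, e1, Matrix.transpose_one]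
    calc g⁻¹ᵀ * U * g⁻¹ = (g⁻¹ᵀ * gᵀ) * G.map φ * (g * g⁻¹) := by
          rw [hUdef]; simp only [Matrix.mul_assoc]
      _ = G.map φ := by rw [e1, e2, Matrix.one_mul, Matrix.mul_one]
  have hkey : (γᵀ * G * γ).map φ = D * W * D := by
    have h1 : (γᵀ * G * γ).map φ = (g⁻¹ * γ.map φ)ᵀ * U * (g⁻¹ * γ.map φ) := by
      rw [Matrix.map_mul, Matrix.map_mul, ← hgg, Matrix.transpose_mul, Matrix.transpose_map]
      simp only [Matrix.mul_assoc]
    rw [h1, hfac, Matrix.transpose_mul, hDT, hW]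
    simp only [Matrix.mul_assoc]
  have hent : ∀ i j, φ ((γᵀ * G * γ) i j) =
      (RatFunc.X : RatFunc F) ^ d i * W i j * (RatFunc.X : RatFunc F) ^ d j := by
    intro i j
    have h1 := congrFun (congrFun hkey i) j
    rw [Matrix.map_apply] at h1
    rw [h1, hD, Matrix.mul_diagonal, Matrix.diagonal_mul]
  -- the degrees
  have hdeg : ∀ i j, (γᵀ * G * γ) i j ≠ 0 → (((γᵀ * G * γ) i j).natDegree : ℤ) ≤ d i + d j := by
    intro i j hij
    have h1 := hent i j
    have h2 : φ ((γᵀ * G * γ) i j) ≠ 0 := fun h => hij (hφi (by rw [h, map_zero]))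
    have h3 : W i j ≠ 0 := by
      intro h
      rw [h, mul_zero, zero_mul] at h1
      exact h2 h1
    have h4 := congrArg RatFunc.intDegree h1
    rw [RatFunc.intDegree_polynomial, RatFunc.intDegree_mul (mul_ne_zero (zpow_ne_zero _ hX0) h3)
      (zpow_ne_zero _ hX0), RatFunc.intDegree_mul (zpow_ne_zero _ hX0) h3, RC2.intDegree_X_zpow,
      RC2.intDegree_X_zpow] at h4
    have h5 : (W i j).intDegree ≤ 0 := hWM i j
    omega
  -- the determinant
  have hdet' : (γᵀ * G * γ).det = C (q ^ 2 * δ) * pc c ^ 2 := by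
    rw [Matrix.det_mul, Matrix.det_mul, Matrix.det_transpose, hdet, ← hqC]
    simp only [map_mul, map_pow]
    ring
  have hδ' : q ^ 2 * δ ≠ 0 := mul_ne_zero (pow_ne_zero 2 hq0) hδ
  have hpc : pc c ≠ 0 := Polynomial.X_sub_C_ne_zero c
  have hsum : d 0 + d 1 + d 2 = 1 := by
    have h1 : φ ((γᵀ * G * γ).det) = (D * W * D).det := by
      rw [← hkey]
      exact RingHom.map_det φ _
    rw [hdet', Matrix.det_mul, Matrix.det_mul, hD, Matrix.det_diagonal, Fin.prod_univ_three] at h1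
    have hne : (RatFunc.X : RatFunc F) ^ d 0 * (RatFunc.X : RatFunc F) ^ d 1 *
        (RatFunc.X : RatFunc F) ^ d 2 ≠ 0 :=
      mul_ne_zero (mul_ne_zero (zpow_ne_zero _ hX0) (zpow_ne_zero _ hX0)) (zpow_ne_zero _ hX0)
    have h4 := congrArg RatFunc.intDegree h1
    rw [RatFunc.intDegree_polynomial, RatFunc.intDegree_mul (mul_ne_zero hne hWd0) hne,
      RatFunc.intDegree_mul hne hWd0,
      RatFunc.intDegree_mul (mul_ne_zero (zpow_ne_zero _ hX0) (zpow_ne_zero _ hX0))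
        (zpow_ne_zero _ hX0),
      RatFunc.intDegree_mul (zpow_ne_zero _ hX0) (zpow_ne_zero _ hX0),
      RC2.intDegree_X_zpow, RC2.intDegree_X_zpow, RC2.intDegree_X_zpow, hWdeg] at h4
    have h5 : (C (q ^ 2 * δ) * pc c ^ 2).natDegree = 2 := by
      rw [Polynomial.natDegree_C_mul hδ', Polynomial.natDegree_pow, Polynomial.natDegree_X_sub_C]
    rw [h5] at h4
    push_cast at h4
    omega
  -- sorting
  set σ : Equiv.Perm (Fin 3) := Tuple.sort d with hσ
  have hmono : Monotone (d ∘ σ) := Tuple.monotone_sort d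
  refine ⟨γ.submatrix id σ, (γᵀ * G * γ).submatrix σ σ, d ∘ σ, q ^ 2 * δ, ?_, ?_, hδ', ?_, ?_,
    ?_, ?_, ?_⟩
  · rw [Matrix.det_permute']
    have h6 : γ.det ≠ 0 := by rw [← hqC]; simpa using hq0
    rcases Int.units_eq_one_or (Equiv.Perm.sign σ) with h | h
    · rw [h]; simpa using h6
    · rw [h]; simpa using h6
  · ext i j
    simp only [Matrix.mul_apply, Matrix.transpose_apply, Matrix.submatrix_apply, id]
  · rw [Matrix.det_submatrix_equiv_self, hdet']
  · have h7 : ∑ i, d (σ i) = ∑ i, d i := Equiv.sum_comp σ d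
    rw [Fin.sum_univ_three, Fin.sum_univ_three] at h7
    simp only [Function.comp_apply]
    rw [h7, hsum]
  · exact hmono (by decide)
  · exact hmono (by decide)
  · intro i j hij
    exact hdeg (σ i) (σ j) hij

end Pool.RZ
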